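import Pool.Agent.H32.N6H.Targets

set_option autoImplicit false

open Polynomial Matrix NumberField IsDedekindDomain Pool.Agent.H32.QC Pool.Agent.H34.N6
open Pool.Agent.H32.N6H

namespace Pool.Agent.H20.N6H

theorem pf_DFC : T_DFC := by
  intro E _ n A B t k hB hk hA
  -- the matrix with the columns `k i`
  set Q : Matrix (Fin n) (Fin n) E := Matrix.of fun i j => k j i with hQ
  have hQdet : Q.det ≠ 0 := by
    have h1 : IsUnit (Matrix.of k) := by
      rw [← Matrix.linearIndependent_rows_iff_isUnit]
      exact hk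
    have h2 : Q = (Matrix.of k)ᵀ := rfl
    rw [h2, Matrix.det_transpose]
    exact ((Matrix.isUnit_iff_isUnit_det _).mp h1).ne_zero
  have h1 : A * Q = B * Q * Matrix.diagonal t := by
    ext i j
    have h2 := congrFun (hA j) i
    rw [Matrix.mul_diagonal]
    simp only [Matrix.mul_apply, hQ, Matrix.of_apply]
    simp only [Matrix.mulVec, dotProduct, Pi.smul_apply, smul_eq_mul] at h2
    rw [h2, mul_comm]
  have h3 : pen A B * Q.map C =
      B.map C * Q.map C * (Matrix.diagonal fun i => (C (t i) - X : E[X])) := by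
    have h4 : (A.map C : Matrix (Fin n) (Fin n) E[X]) * Q.map C =
        B.map C * Q.map C * Matrix.diagonal fun i => (C (t i) : E[X]) := by
      have h5 := congrArg (fun M : Matrix (Fin n) (Fin n) E => M.map (C : E →+* E[X])) h1
      simp only [Matrix.map_mul, Matrix.diagonal_map (map_zero C)] at h5
      exact h5
    have h6 : (Matrix.diagonal fun i => (C (t i) - X : E[X])) =
        (Matrix.diagonal fun i => (C (t i) : E[X])) -
          (X : E[X]) • (1 : Matrix (Fin n) (Fin n) E[X]) := by
      rw [Matrix.smul_one_eq_diagonal, Matrix.diagonal_sub]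
    unfold pen
    rw [h6, Matrix.sub_mul, h4, Matrix.mul_sub, Matrix.mul_smul, Matrix.mul_one,
      Matrix.smul_mul]
  have h7 := congrArg Matrix.det h3
  rw [Matrix.det_mul, Matrix.det_mul, Matrix.det_mul, Matrix.det_diagonal] at h7
  have hdetC : ∀ M : Matrix (Fin n) (Fin n) E, (M.map (C : E →+* E[X])).det = C M.det := by
    intro M
    rw [RingHom.map_det]
    rfl
  rw [hdetC, hdetC] at h7
  have h8 : (C Q.det : E[X]) ≠ 0 := by
    rw [Ne, C_eq_zero]
    exact hQdet
  apply mul_right_cancel₀ h8
  rw [h7]
  ring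

end Pool.Agent.H20.N6H
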